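import Pool.Agent.C4F.StmtsP

/-!
# Squad C4F, row CLN: the number of variables of a line
-/

set_option autoImplicit false

namespace Pool.Agent.C4F.H28

theorem cn_eq (P : ℕ → Prop) [inst : DecidablePred P] (n : ℕ) :
    cn P n = ((Finset.range n).filter P).card := by
  have h : inst = fun a => Classical.propDecidable (P a) := Subsingleton.elim _ _
  subst h
  classical
  exact Nat.count_eq_card_filter_range P n

/-- the sum of the rounded quotients -/
theorem sum_div_le (e : ℕ → ℕ) (k X : ℕ) (hk : 0 < k) (he : ∑ p ∈ Finset.range k, e p ≤ X) :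
    ∑ p ∈ Finset.range k, (e p / k + 1) ≤ X / k + k := by
  rw [Finset.sum_add_distrib]
  have h1 : ∑ p ∈ Finset.range k, e p / k ≤ X / k := by
    rw [Nat.le_div_iff_mul_le hk, Finset.sum_mul]
    refine le_trans ?_ he
    exact Finset.sum_le_sum fun p _ => Nat.div_mul_le_self _ _
  have h2 : ∑ _p ∈ Finset.range k, 1 = k := by simp
  omega

/-- a line contains at most one point of each column -/
theorem card_col (q h : ℕ) (f : ℕ → ℕ) (P : ℕ → Prop) [DecidablePred P]
    (hP : ∀ p, P p → p % q % q = f (p / q) % q) :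
    ((Finset.range (h * q)).filter P).card ≤ h := by
  have h1 : ((Finset.range (h * q)).filter P).card ≤ (Finset.range h).card := by
    refine Finset.card_le_card_of_injOn (fun p => p / q) ?_ ?_
    · intro p hp
      have hp' := (Finset.mem_filter.mp (Finset.mem_coe.mp hp)).1
      rw [Finset.mem_range] at hp'
      exact Finset.mem_coe.mpr (Finset.mem_range.mpr (Nat.div_lt_of_lt_mul (by rwa [mul_comm] at hp')))
    · intro p hp p' hp' hpp
      have e1 := hP _ (Finset.mem_filter.mp (Finset.mem_coe.mp hp)).2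
      have e2 := hP _ (Finset.mem_filter.mp (Finset.mem_coe.mp hp')).2
      simp only at hpp
      rw [Nat.mod_mod] at e1 e2
      rw [← Nat.div_add_mod p q, ← Nat.div_add_mod p' q, e1, e2, hpp]
  simpa using h1

open Classical in
/-- the arithmetic of the row -/
theorem arith (h q X : ℕ) (hq : 2 * h ≤ q) :
    h * (h * (X / (h * q) + h * q)) + h * (h * (X / (h * q) + h * q)) ≤ X + (h * q) ^ 2 := by
  have h1 : 2 * h * h ≤ h * q := by nlinarith
  have h2 : h * q * (X / (h * q)) ≤ X := Nat.mul_div_le _ _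
  have h3 : 2 * h * h * (X / (h * q)) ≤ h * q * (X / (h * q)) := Nat.mul_le_mul_right _ h1
  have h4 : 2 * h * h * (h * q) ≤ h * q * (h * q) := Nat.mul_le_mul_right _ h1
  nlinarith

open Classical in
/-- **Row CLN.** -/
theorem cln (rr : RrStmt) (src : SrcStmt) : ClnStmt := by
  intro D hD a b
  have h3 := hD.three
  have hq : 0 < D.q := by omega
  have hh : 2 * D.h ≤ D.q := by unfold Dat.h; omega
  have hh1 : 1 ≤ D.h := by unfold Dat.h; omega
  have hkp : 0 < D.kp := Nat.mul_pos hh1 hq
  obtain ⟨-, src2, src3, -⟩ := src D hD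
  set X := 3 * (D.m / D.kp + 1) with hX
  -- the sets
  set A := (Finset.range D.kp).filter (D.OnP a b) with hA
  set B := (Finset.range D.kp).filter (D.OnR a b) with hB
  have hAc : A.card ≤ D.h := by
    exact card_col D.q D.h (fun x => a * x + b) (D.OnP a b) fun p hp => hp
  have hBc : B.card ≤ D.h := by
    exact card_col D.q D.h (fun x => a * (D.h + x) + b) (D.OnR a b) fun p hp => hp
  let F : ℕ → ℕ → ℕ → Finset ℕ := fun p p' r => (Finset.range (3 * D.m)).filter
    (fun s => ∃ t < 3 * D.m, D.Lk s t ∧ D.grp s = p ∧ D.grp t = p' ∧ D.rt s t = r)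
  have hF : ∀ p p' r, (F p p' r).card ≤ cn (D.Src p p') (3 * D.m) / D.kp + 1 := by
    intro p p' r
    have h := rr D hD p p' r
    rw [cn_eq (fun s => ∃ t < 3 * D.m, D.Lk s t ∧ D.grp s = p ∧ D.grp t = p' ∧ D.rt s t = r)] at h
    exact h
  set S1 := A.biUnion fun p => B.biUnion fun r => (Finset.range D.kp).biUnion fun p' => F p p' r
    with hS1
  set S2 := A.biUnion fun p' => B.biUnion fun r => (Finset.range D.kp).biUnion fun p => F p p' r
    with hS2
  have hS1c : S1.card ≤ D.h * (D.h * (X / D.kp + D.kp)) := by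
    refine (Finset.card_biUnion_le_card_mul _ _ (D.h * (X / D.kp + D.kp)) ?_).trans
      (Nat.mul_le_mul_right _ hAc)
    intro p _
    refine (Finset.card_biUnion_le_card_mul _ _ (X / D.kp + D.kp) ?_).trans
      (Nat.mul_le_mul_right _ hBc)
    intro r _
    refine Finset.card_biUnion_le.trans ?_
    refine (Finset.sum_le_sum fun p' _ => hF p p' r).trans ?_
    exact sum_div_le _ _ _ hkp (src2 p)
  have hS2c : S2.card ≤ D.h * (D.h * (X / D.kp + D.kp)) := by
    refine (Finset.card_biUnion_le_card_mul _ _ (D.h * (X / D.kp + D.kp)) ?_).trans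
      (Nat.mul_le_mul_right _ hAc)
    intro p' _
    refine (Finset.card_biUnion_le_card_mul _ _ (X / D.kp + D.kp) ?_).trans
      (Nat.mul_le_mul_right _ hBc)
    intro r _
    refine Finset.card_biUnion_le.trans ?_
    refine (Finset.sum_le_sum fun p _ => hF p p' r).trans ?_
    exact sum_div_le _ _ _ hkp (src3 p')
  have hsub : (Finset.range D.n).filter (D.VL a b) ⊆ (S1 ∪ S2).image D.vr := by
    intro v hv
    obtain ⟨-, s, hs, t, ht, hlk, hvs, hr, hpp⟩ := Finset.mem_filter.mp hv
    rw [Finset.mem_image]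
    refine ⟨s, ?_, hvs⟩
    have hgs : D.grp s < D.kp := Nat.mod_lt _ hkp
    have hgt : D.grp t < D.kp := Nat.mod_lt _ hkp
    have hrt : D.rt s t < D.kp := Nat.mod_lt _ hkp
    have hBm : D.rt s t ∈ B := Finset.mem_filter.mpr ⟨Finset.mem_range.mpr hrt, hr⟩
    have hFm : s ∈ F (D.grp s) (D.grp t) (D.rt s t) :=
      Finset.mem_filter.mpr ⟨Finset.mem_range.mpr hs, t, ht, hlk, rfl, rfl, rfl⟩
    rw [Finset.mem_union]
    rcases hpp with h | h
    · left
      rw [hS1, Finset.mem_biUnion]
      refine ⟨D.grp s, Finset.mem_filter.mpr ⟨Finset.mem_range.mpr hgs, h⟩, ?_⟩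
      rw [Finset.mem_biUnion]
      refine ⟨D.rt s t, hBm, ?_⟩
      rw [Finset.mem_biUnion]
      exact ⟨D.grp t, Finset.mem_range.mpr hgt, hFm⟩
    · right
      rw [hS2, Finset.mem_biUnion]
      refine ⟨D.grp t, Finset.mem_filter.mpr ⟨Finset.mem_range.mpr hgt, h⟩, ?_⟩
      rw [Finset.mem_biUnion]
      refine ⟨D.rt s t, hBm, ?_⟩
      rw [Finset.mem_biUnion]
      exact ⟨D.grp s, Finset.mem_range.mpr hgs, hFm⟩
  rw [cn_eq]
  refine (Finset.card_le_card hsub).trans ?_
  refine Finset.card_image_le.trans ?_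
  refine (Finset.card_union_le _ _).trans ?_
  refine (Nat.add_le_add hS1c hS2c).trans ?_
  have := arith D.h D.q X hh
  exact this

end Pool.Agent.C4F.H28
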